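import Pool.Agent.Lib.MP_9721b5_an.Cplx

set_option autoImplicit false

open MeasureTheory Filter

namespace Pool.Agent.Results.MP_9721b5_an.AllSystems

/-- For every measure-preserving map T of a probability space and all essentially bounded complex
f, g, h, the averages (1/N) sum over n from 1 to N of f(T^n x) g(T^(2n) x) h(T^(3n) x) converge
for almost every x. -/
theorem result {X : Type*} [MeasurableSpace X] (μ : Measure X) [IsProbabilityMeasure μ]
    (T : X → X) (hT : MeasurePreserving T μ μ) (f g h : X → ℂ) (hf : MemLp f ⊤ μ)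
    (hg : MemLp g ⊤ μ) (hh : MemLp h ⊤ μ) :
    ∀ᵐ x ∂μ, ∃ L : ℂ, Tendsto (fun N : ℕ => (N : ℂ)⁻¹ *
      ∑ n ∈ Finset.Icc 1 N, f (T^[n] x) * g (T^[2 * n] x) * h (T^[3 * n] x)) atTop (nhds L) :=
  Pool.Agent.Lib.MP_9721b5_an.cplx_all μ T hT f g h hf hg hh

end Pool.Agent.Results.MP_9721b5_an.AllSystems
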