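import Pool.Agent.Lib.MP_9721b5_an.Main

set_option autoImplicit false

open MeasureTheory ProbabilityTheory Filter

namespace Pool.Agent.Results.MP_9721b5_an.GaussianSystems

/-- Pointwise convergence of multiple ergodic averages for commuting Gaussian automorphisms. -/
theorem result (X : Type) [MeasurableSpace X] (μ : Measure X) [IsProbabilityMeasure μ]
    (k : ℕ) (T : Fin k → X ≃ᵐ X)
    (hT : ∀ j, MeasurePreserving (T j) μ μ)
    (hcomm : ∀ i j x, T i (T j x) = T j (T i x))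
    (H : Submodule ℝ (X → ℝ))
    (hmeas : ∀ ξ ∈ H, Measurable ξ)
    (hgauss : ∀ ξ ∈ H, HasGaussianLaw ξ μ)
    (hinv : ∀ j, ∀ ξ ∈ H, ξ ∘ T j ∈ H ∧ ξ ∘ (T j).symm ∈ H)
    (f : Fin k → X → ℂ) (hf : ∀ j, MemLp (f j) ⊤ μ)
    (hfH : ∀ j, ∃ g : X → ℂ,
      Measurable[⨆ ξ ∈ H, MeasurableSpace.comap ξ (borel ℝ)] g ∧ f j =ᵐ[μ] g) :
    ∀ᵐ x ∂μ, ∃ L : ℂ,
      Tendsto (fun N : ℕ => (N : ℂ)⁻¹ * ∑ n ∈ Finset.Icc 1 N, ∏ j, f j ((T j)^[n] x))
        atTop (nhds L) :=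
  Pool.Agent.Lib.MP_9721b5_an.gaussian_multiple T hT hcomm hmeas hgauss hinv f hf hfH

end Pool.Agent.Results.MP_9721b5_an.GaussianSystems
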